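import Mathlib
import Pool.Agent.H21.ACCDef

namespace Pool.Agent.Results.MP_07bc1a_al.Counter

open Pool.Agent.H21.ACC FreeMonoid

/-- Letters `a = 0`, `u = 1`, `c = 2`, `d = 3`; the word `c a^k d`. -/
def w (k : ℕ) : FreeMonoid (Fin 4) := of 2 * of 0 ^ k * of 3

def R (x y : FreeMonoid (Fin 4)) : Prop := ∃ k, x = w k ∧ y = of 1 * w (k + 1)


theorem inv {M : Type} [Monoid M] (f : Fin 4 → M) (h : ∀ k, lift f (w k) = lift f (of 1 * w (k + 1)))
    {x y : FreeMonoid (Fin 4)} (e : PresentedMonoid.mk R x = PresentedMonoid.mk R y) :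
    lift f x = lift f y :=
  congrArg (PresentedMonoid.lift f (rels := R) (by rintro _ _ ⟨k, rfl, rfl⟩; exact h k)) e

def gA (i : Fin 4) : Function.End ℕ := fun n => if 2 ≤ i then 0 else if i = 0 then n + 1 else n
def gB (i : Fin 4) : (Function.End ℕ)ᵐᵒᵖ := MulOpposite.op fun n => if 2 ≤ i then 0 else n + 1
def gC (i : Fin 4) : Multiplicative ℕ := Multiplicative.ofAdd (if 2 ≤ i then 1 else 0)
def gD (i : Fin 4) : Multiplicative ℤ :=
  Multiplicative.ofAdd (if i = 0 then 1 else if i = 1 then -1 else 0)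

theorem A_mono (x : FreeMonoid (Fin 4)) : Monotone (lift gA x) := by
  induction x using FreeMonoid.inductionOn' with
  | one => exact monotone_id
  | of_mul i x ih =>
    rw [map_mul, lift_eval_of]
    refine Monotone.comp (fun a b h => ?_) ih
    unfold gA; split_ifs <;> omega

theorem B_mono (x : FreeMonoid (Fin 4)) : Monotone (lift gB x).unop := by
  induction x using FreeMonoid.inductionOn' with
  | one => exact monotone_id
  | of_mul i x ih =>
    rw [map_mul, lift_eval_of]
    refine ih.comp fun a b h => ?_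
    simp only [gB, MulOpposite.unop_op]; split_ifs <;> omega

theorem free (x : FreeMonoid (Fin 4)) (h : (lift gC x).toAdd = 0) : ∃ a : ℕ,
    (∀ n, lift gA x n = n + a) ∧ (∀ n, (lift gB x).unop n = n + x.length) ∧
      (lift gD x).toAdd = 2 * a - x.length := by
  induction x using FreeMonoid.inductionOn' with
  | one => exact ⟨0, fun _ => rfl, fun _ => rfl, rfl⟩
  | of_mul i x ih =>
    simp only [map_mul, lift_eval_of, toAdd_mul, gC, toAdd_ofAdd] at h
    obtain ⟨a, h1, h2, h3⟩ := ih (by omega)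
    have e1 : ∀ n, lift gA (of i * x) n = gA i (lift gA x n) := fun n => by rw [map_mul]; rfl
    have e2 : ∀ n, (lift gB (of i * x)).unop n = (lift gB x).unop ((gB i).unop n) := fun n => by
      rw [map_mul]; rfl
    simp only [e1, e2, h1, h2, map_mul (lift gD), toAdd_mul, h3, lift_eval_of, length_mul, length_of]
    fin_cases i
    · exact ⟨a + 1, fun n => rfl, fun n => by simp [gB]; omega, by simp [gD]; ring⟩
    · exact ⟨a, fun n => rfl, fun n => by simp [gB]; omega, by simp [gD]; ring⟩
    all_goals simp at h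

theorem acyc (p x q : FreeMonoid (Fin 4))
    (e : PresentedMonoid.mk R (p * x * q) = PresentedMonoid.mk R x) : p = 1 ∧ q = 1 := by
  have hA := inv gA (fun k => by funext n; simp only [w, map_mul, lift_eval_of]; rfl) e
  have hB := inv gB (fun k => by
    apply MulOpposite.unop_injective; funext n; simp only [w, map_mul, lift_eval_of]; rfl) e
  have hC := congrArg Multiplicative.toAdd (inv gC (fun k => by simp [w, gC]) e)
  have hD := congrArg Multiplicative.toAdd
    (inv gD (fun k => by apply Multiplicative.toAdd.injective; simp [w, gD]) e)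
  simp only [map_mul, toAdd_mul] at hA hB hC hD
  obtain ⟨a, a1, a2, a3⟩ := free p (by omega)
  obtain ⟨b, b1, b2, b3⟩ := free q (by omega)
  have h1 : (lift gB q).unop ((lift gB x).unop ((lift gB p).unop 0)) = (lift gB x).unop 0 :=
    congrArg (fun g => g.unop 0) hB
  have h2 : lift gA p (lift gA x (lift gA q 0)) = lift gA x 0 := congrFun hA 0
  have h3 := B_mono x (Nat.zero_le ((lift gB p).unop 0))
  have h4 := A_mono x (Nat.zero_le (lift gA q 0))
  rw [b2] at h1
  rw [a1] at h2
  have h5 : q = 1 := length_eq_zero.1 (by omega)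
  subst h5
  rw [map_one, toAdd_one] at hD
  exact ⟨length_eq_zero.1 (by omega), rfl⟩

theorem result : ∃ (X : Type) (_ : Finite X) (R : FreeMonoid X → FreeMonoid X → Prop),
    (∀ u v x : PresentedMonoid R, ¬ IsUnit u ∨ ¬ IsUnit v → u * x * v ≠ x) ∧
      ¬ ACCP (PresentedMonoid R) := by
  have key : ∀ u v x : PresentedMonoid R, u * x * v = x → u = 1 ∧ v = 1 := by
    intro u v x
    induction u, v, x using PresentedMonoid.inductionOn₃ with
    | h p q x => intro e; obtain ⟨rfl, rfl⟩ := acyc p x q e; exact ⟨rfl, rfl⟩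
  refine ⟨Fin 4, inferInstance, R, fun u v x h e => ?_, fun h => ?_⟩
  · obtain ⟨rfl, rfl⟩ := key u v x e
    simp at h
  have rel : ∀ k, PresentedMonoid.mk R (w k) =
      PresentedMonoid.mk R (of 1) * PresentedMonoid.mk R (w (k + 1)) := fun k =>
    Quotient.sound (ConGen.Rel.of _ _ ⟨k, rfl, rfl⟩)
  obtain ⟨N, hN⟩ := h (fun k => PresentedMonoid.mk R (w k)) fun k z ⟨g, t, hz⟩ =>
    ⟨g * PresentedMonoid.mk R (of 1), t, by rw [hz, rel k, ← mul_assoc]⟩
  obtain ⟨g, t, e⟩ := (Set.ext_iff.1 (hN (N + 1) (by omega)) (PresentedMonoid.mk R (w (N + 1)))).1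
    ⟨1, 1, by simp⟩
  rw [rel N, ← mul_assoc] at e
  obtain ⟨g, rfl⟩ := PresentedMonoid.surjective_mk g
  obtain ⟨t, rfl⟩ := PresentedMonoid.surjective_mk t
  have := congrArg length (acyc (g * of 1) _ t e.symm).1
  simp at this

end Pool.Agent.Results.MP_07bc1a_al.Counter
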